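import Pool.Agent.Helper61.BT.Goals
import Pool.Agent.Helper26.VF.ActRtr

/-!
# Project BT, packet PRJ: the projection onto the closure of the values
-/

set_option autoImplicit false

namespace Pool.Agent.Helper91.BT

open Pool.Agent.Helper38.VF Pool.Agent.Helper61.BT Pool.Agent.Helper26.VF

universe u

variable {A : Type u} [Group A] [DistribMulAction A (L2 A)]

theorem act_smul (hact : LeftAct A) (y : A) (c : ℝ) (v : L2 A) :
    y • (c • v) = c • (y • v) := by
  refine l2ext fun a => ?_
  rw [hact, lp.coeFn_smul, lp.coeFn_smul, Pi.smul_apply, Pi.smul_apply, hact]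

theorem uv_add (o : Option A) (v w : L2 A) : Uv o (v + w) = Uv o v + Uv o w := by
  cases o with
  | none => rfl
  | some y =>
    change (v + w) - y • (v + w) = (v - y • v) + (w - y • w)
    rw [smul_add]
    abel

theorem uv_smul (hact : LeftAct A) (o : Option A) (c : ℝ) (v : L2 A) :
    Uv o (c • v) = c • Uv o v := by
  cases o with
  | none => rfl
  | some y =>
    change c • v - y • (c • v) = c • (v - y • v)
    rw [act_smul hact, smul_sub]

/-- The values. -/
def vals (hact : LeftAct A) (E : Subgroup A) (o : Option A) : Submodule ℝ (L2 A) where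
  carrier := {z : L2 A | ∃ v : L2 A, (∀ e ∈ E, e • v = v) ∧ z = Uv o v}
  add_mem' := by
    rintro _ _ ⟨v, hv, rfl⟩ ⟨w, hw, rfl⟩
    exact ⟨v + w, fun e he => by rw [smul_add, hv e he, hw e he], (uv_add o v w).symm⟩
  zero_mem' := ⟨0, fun e _ => smul_zero e, by
    cases o with
    | none => rfl
    | some y =>
      change (0 : L2 A) = 0 - y • (0 : L2 A)
      rw [smul_zero, sub_zero]⟩
  smul_mem' := by
    rintro c _ ⟨v, hv, rfl⟩
    exact ⟨c • v, fun e he => by rw [act_smul hact, hv e he], (uv_smul hact o c v).symm⟩

/-- right translation -/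
def rt (h : A) : L2 A ≃ₗᵢ[ℝ] L2 A := perE (Equiv.mulRight h)

omit [DistribMulAction A (L2 A)] in
theorem rt_apply (h : A) (f : L2 A) (a : A) : rt h f a = f (a * h) := rfl

omit [DistribMulAction A (L2 A)] in
theorem rt_rt (h : A) (f : L2 A) : rt h (rt h⁻¹ f) = f := by
  refine l2ext fun a => ?_
  rw [rt_apply, rt_apply, mul_inv_cancel_right]

theorem smul_rt (hact : LeftAct A) (e h : A) (f : L2 A) : e • rt h f = rt h (e • f) := by
  refine l2ext fun a => ?_
  rw [hact, rt_apply, rt_apply, hact, mul_assoc]

theorem rt_vals (hact : LeftAct A) (E : Subgroup A) (o : Option A) (h : A) (z : L2 A)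
    (hz : z ∈ vals hact E o) : rt h z ∈ vals hact E o := by
  obtain ⟨v, hv, rfl⟩ := hz
  refine ⟨rt h v, fun e he => by rw [smul_rt hact, hv e he], ?_⟩
  cases o with
  | none => rfl
  | some y =>
    change rt h (v - y • v) = rt h v - y • rt h v
    rw [map_sub, smul_rt hact]

theorem rt_closure (hact : LeftAct A) (E : Subgroup A) (o : Option A) (h : A) (z : L2 A)
    (hz : z ∈ (vals hact E o).topologicalClosure) :
    rt h z ∈ (vals hact E o).topologicalClosure := by
  rw [← SetLike.mem_coe, Submodule.topologicalClosure_coe] at hz ⊢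
  exact map_mem_closure (rt h).continuous hz fun z hz => rt_vals hact E o h z hz

theorem prj : PrjStmt.{u} := by
  classical
  intro A _ _ hact E N o hE hN ho
  have : CompleteSpace (vals hact E o).topologicalClosure :=
    (vals hact E o).isClosed_topologicalClosure.completeSpace_coe
  set V := (vals hact E o).topologicalClosure with hV
  have hsym : ∀ f g : L2 A, inner ℝ (V.starProjection f) g = inner ℝ f (V.starProjection g) :=
    fun f g => V.inner_starProjection_left_eq_right f g
  have hid : ∀ f, V.starProjection (V.starProjection f) = V.starProjection f := fun f =>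
    Submodule.starProjection_eq_self_iff.2 (V.starProjection_apply_mem f)
  refine ⟨V.starProjection, hsym, hid, ?_, ?_, ?_⟩
  · intro f
    have h1 : V.starProjection f ∈ V := V.starProjection_apply_mem f
    have h2 : (V : Set (L2 A)) =
        closure {z : L2 A | ∃ v : L2 A, (∀ e ∈ E, e • v = v) ∧ z = Uv o v} := by
      rw [hV, Submodule.topologicalClosure_coe]
      rfl
    rw [← h2]
    exact h1
  · intro h f f' hf a
    have e1 : f' = rt h f := l2ext fun a => by rw [hf, rt_apply]
    rw [e1]
    have e2 : V.starProjection (rt h f) = rt h (V.starProjection f) := by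
      refine Submodule.eq_starProjection_of_mem_of_inner_eq_zero
        (rt_closure hact E o h _ (V.starProjection_apply_mem f)) ?_
      intro w hw
      have h1 : rt h⁻¹ w ∈ V := rt_closure hact E o h⁻¹ w hw
      have h2 := V.starProjection_inner_eq_zero f (rt h⁻¹ w) h1
      rw [← map_sub, ← rt_rt h w, LinearIsometryEquiv.inner_map_map]
      exact h2
    rw [e2, rt_apply]
  · intro δ₁ hδ
    -- the indicator function
    set F : Finset A := hE.toFinset with hF
    have hFm : ∀ a, a ∈ F ↔ a ∈ E := fun a => by rw [hF, Set.Finite.mem_toFinset]; rfl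
    have hFc : (F.card : ℝ) ≤ N := by
      have : F.card = Nat.card E := by
        rw [hF, ← Set.ncard_eq_toFinset_card _ hE]
        rfl
      rw [this]
      exact_mod_cast hN
    have hF0 : 0 < F.card := Finset.card_pos.2 ⟨1, (hFm 1).2 E.one_mem⟩
    set v : L2 A := ∑ e ∈ F, lp.single 2 e (1 : ℝ) with hv
    have hin : ∀ g : L2 A, inner ℝ v g = ∑ e ∈ F, g e := by
      intro g
      rw [hv, sum_inner]
      refine Finset.sum_congr rfl fun e _ => ?_
      rw [lp.inner_single_left]
      simp
    have hva : ∀ a, v a = if a ∈ E then 1 else 0 := by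
      intro a
      have h1 := hin (lp.single 2 a (1 : ℝ))
      rw [lp.inner_single_right] at h1
      have h2 : inner ℝ (v a) (1 : ℝ) = v a := by simp
      rw [h2] at h1
      rw [h1]
      have h3 : ∀ e ∈ F, (lp.single 2 a (1 : ℝ) : L2 A) e = if e = a then 1 else 0 := by
        intro e _
        rw [lp.single_apply]
        by_cases h : e = a
        · subst h
          rw [Pi.single_eq_same, if_pos rfl]
        · rw [Pi.single_eq_of_ne h, if_neg h]
      rw [Finset.sum_congr rfl h3, Finset.sum_ite_eq']
      by_cases h : a ∈ E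
      · rw [if_pos ((hFm a).2 h), if_pos h]
      · rw [if_neg (fun h' => h ((hFm a).1 h')), if_neg h]
    have hvE : ∀ e ∈ E, e • v = v := by
      intro e he
      refine l2ext fun a => ?_
      rw [hact, hva, hva]
      have : e⁻¹ * a ∈ E ↔ a ∈ E := E.mul_mem_cancel_left (E.inv_mem he)
      by_cases h : a ∈ E
      · rw [if_pos (this.2 h), if_pos h]
      · rw [if_neg (fun h' => h (this.1 h')), if_neg h]
    have hvv : inner ℝ v v = (F.card : ℝ) := by
      rw [hin]
      have : ∀ e ∈ F, v e = 1 := fun e he => by rw [hva, if_pos ((hFm e).1 he)]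
      rw [Finset.sum_congr rfl this]
      simp
    -- the value
    set z := Uv o v with hz
    have hzV : z ∈ V := (vals hact E o).le_topologicalClosure ⟨v, hvE, rfl⟩
    have hz1 : z 1 = 1 := by
      rw [hz]
      cases ho' : o with
      | none =>
        change v 1 = 1
        rw [hva, if_pos E.one_mem]
      | some y =>
        change (v - y • v) 1 = 1
        rw [lp.coeFn_sub, Pi.sub_apply, hact, hva, hva, if_pos E.one_mem, if_neg, sub_zero]
        rw [mul_one]
        intro h
        exact ho y ho' (inv_inv y ▸ E.inv_mem h)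
    have hzz : inner ℝ z z ≤ 2 * (F.card : ℝ) := by
      rw [hz]
      cases o with
      | none =>
        change inner ℝ v v ≤ _
        rw [hvv]
        have : (0 : ℝ) ≤ F.card := by positivity
        linarith
      | some y =>
        change inner ℝ (v - y • v) (v - y • v) ≤ _
        have h1 : inner ℝ (y • v) (y • v) = (F.card : ℝ) := by
          have e1 : y • v = perE (Equiv.mulLeft y⁻¹) v := l2ext fun a => by
            rw [hact]
            rfl
          rw [e1, LinearIsometryEquiv.inner_map_map, hvv]
        have h2 : 0 ≤ inner ℝ v (y • v) := by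
          rw [hin]
          refine Finset.sum_nonneg fun e _ => ?_
          rw [hact, hva]
          split_ifs <;> norm_num
        rw [inner_sub_left, inner_sub_right, inner_sub_right, real_inner_comm v (y • v), hvv, h1]
        linarith
    -- the inequality
    have hδ1 : δ₁ = lp.single 2 1 (1 : ℝ) := by
      refine l2ext fun a => ?_
      rw [hδ, lp.single_apply]
      by_cases h : a = 1
      · subst h
        rw [Pi.single_eq_same, if_pos rfl]
      · rw [Pi.single_eq_of_ne h, if_neg h]
    have hev : ∀ g : L2 A, inner ℝ g δ₁ = g 1 := by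
      intro g
      rw [hδ1, lp.inner_single_right]
      simp
    have h1 : inner ℝ z (V.starProjection δ₁) = (1 : ℝ) := by
      rw [← hsym, Submodule.starProjection_eq_self_iff.2 hzV, hev, hz1]
    have h2 : inner ℝ (V.starProjection δ₁) (V.starProjection δ₁) = (V.starProjection δ₁) 1 := by
      rw [← hsym, hid, hev]
    have h3 := real_inner_mul_inner_self_le z (V.starProjection δ₁)
    rw [h1, h2] at h3
    have h4 : 0 ≤ (V.starProjection δ₁) 1 := by
      rw [← h2]
      exact real_inner_self_nonneg
    have hN0 : (0 : ℝ) < N := lt_of_lt_of_le (by exact_mod_cast hF0) hFc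
    rw [div_le_iff₀ (by positivity)]
    nlinarith [mul_le_mul_of_nonneg_right hzz h4, mul_le_mul_of_nonneg_right hFc h4]

end Pool.Agent.Helper91.BT
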